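import Pool.Agent.Helper54.SRD.Basic

set_option autoImplicit false

open Set Filter MeasureTheory
open scoped Manifold ContDiff Topology

noncomputable section

namespace Pool.Agent.Helper96.SRD

open Pool.Agent.Helper54.SRD

theorem nm_smul' {E : Type*} [NormedAddCommGroup E] [NormedSpace ℝ E] (B : Bil E) (r : ℝ)
    (u : E) : nm B (r • u) = |r| * nm B u := by
  have h : B (r • u) (r • u) = (r * r) * B u u := by
    simp [mul_assoc]
  unfold nm
  rw [h, Real.sqrt_mul (mul_self_nonneg r), Real.sqrt_mul_self_eq_abs]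

/-- AFF: straight segments in a chart. -/
theorem aff (E : Type*) [NormedAddCommGroup E] [NormedSpace ℝ E] [FiniteDimensional ℝ E]
    (M : Type*) [TopologicalSpace M] [ChartedSpace E M] [IsManifold 𝓘(ℝ, E) ∞ M]
    (hchg : S_CHG E M) (hrch : S_RCH E M) : S_AFF E M := by
  intro G x z w c hc hseg
  set β : ℝ → E := fun s => z + (s / c) • (w - z) with hβ
  have hβc : Continuous β := by
    rw [hβ]
    fun_prop
  have hβ01 : ∀ s ∈ Icc (0 : ℝ) c, β s ∈ tgt E x ∧ nm (G.G x (β s)) (w - z) ≤ c := by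
    intro s hs
    exact hseg (s / c) ⟨div_nonneg hs.1 hc.le, (div_le_one hc).2 hs.2⟩
  have hsp : ∀ s ∈ Icc (0 : ℝ) c, SpeedLE G 1 (fun s => chi x (β s)) s := by
    intro s hs
    obtain ⟨h1, h2⟩ := hβ01 s hs
    have hcont : ContinuousAt (fun s => (chi x (β s) : M)) s :=
      ContinuousAt.comp (f := β) (g := (chi x : E → M)) (continuousAt_chi h1) hβc.continuousAt
    rw [hchg G 1 _ s x zero_le_one hcont (chi_mem h1)]
    intro δ hδ
    have hev : ∀ᶠ t in 𝓝 s, β t ∈ tgt E x :=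
      hβc.continuousAt.eventually ((isOpen_tgt x).mem_nhds h1)
    have hev2 : ∀ᶠ p : ℝ × ℝ in 𝓝 (s, s), β p.1 ∈ tgt E x ∧ β p.2 ∈ tgt E x := by
      rw [nhds_prod_eq]
      exact hev.prod_mk hev
    filter_upwards [hev2] with p hp
    rw [ch_chi h1, ch_chi hp.1, ch_chi hp.2]
    have e : β p.2 - β p.1 = ((p.2 - p.1) / c) • (w - z) := by
      simp only [hβ]
      rw [add_sub_add_left_eq_sub, ← sub_smul, sub_div]
    rw [e, nm_smul', abs_div, abs_of_pos hc]
    calc |p.2 - p.1| / c * nm (G.G x (β s)) (w - z) ≤ |p.2 - p.1| / c * c := by gcongr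
      _ = |p.2 - p.1| := by field_simp
      _ ≤ (1 + δ) * |p.2 - p.1| := by nlinarith [abs_nonneg (p.2 - p.1)]
  have := (hrch G).2.2.2.2 1 (fun s => chi x (β s)) 0 c zero_lt_one hc.le hsp
  have e0 : β 0 = z := by simp [hβ]
  have e1 : β c = w := by simp [hβ, div_self hc.ne']
  simpa [e0, e1] using this

end Pool.Agent.Helper96.SRD
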