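import Pool.Agent.Helper54.SRD.Goals

set_option autoImplicit false

open Set Filter MeasureTheory
open scoped Manifold ContDiff Topology

noncomputable section

namespace Pool.Agent.Helper96.SRD

open Pool.Agent.Helper54.SRD

/-- LIM: compactness, along an ultrafilter. -/
theorem lim (E : Type*) [NormedAddCommGroup E] [NormedSpace ℝ E] [FiniteDimensional ℝ E]
    (M : Type*) [TopologicalSpace M] [ChartedSpace E M] [IsManifold 𝓘(ℝ, E) ∞ M]
    (hexit : S_EXIT E M) : S_LIM E M := by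
  intro hc h2 G 𝒰 γ C hC hγ
  have hlim : ∀ t : ℝ, ∃ y : M, Tendsto (fun n => γ n t) (𝒰 : Filter ℕ) (𝓝 y) := by
    intro t
    obtain ⟨y, -, hy⟩ := isCompact_univ.ultrafilter_le_nhds (𝒰.map (fun n => γ n t)) (by simp)
    exact ⟨y, hy⟩
  choose γ' hγ' using hlim
  refine ⟨γ', fun t₀ N hN => ?_⟩
  obtain ⟨N', hN', r, hr, hex⟩ := hexit h2 G C (γ' t₀) N hC hN
  refine ⟨r, hr, ?_⟩
  filter_upwards [hγ' t₀ hN'] with n hn t ht
  exact hex (γ n) t₀ (hγ n) hn t ht

end Pool.Agent.Helper96.SRD
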